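import Pool.Agent.helper76.UF.Spec

set_option autoImplicit false

namespace Pool.Agent.UF

open Finset Polynomial NumberField

theorem HFI (h1 : BAS_stmt) (h2 : BIN_stmt) (h3 : CO2_stmt) (h4 : IND_stmt) (h5 : CPR_stmt) :
    H_stmt := by
  intro m c r K _ _ _ z hz hr hbig s hcard hodd hsum δ hδ
  have hcyc := h1 m K z hz
  obtain ⟨b, hb, -⟩ := h2 (2 ^ m) (𝓞 K) z Nat.one_le_two_pow hcyc
  have hzN : z ^ (2 ^ m) = -1 := hcyc.1.1
  have hz2 : z ^ (2 ^ (m + 1)) = 1 := hz.pow_eq_one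
  have hpos : 1 ≤ 2 ^ (m + 1) := Nat.one_le_two_pow
  have hbz : b z = z ^ (2 ^ (m + 1) - 1) := by
    have e1 : z * z ^ (2 ^ (m + 1) - 1) = 1 := by
      rw [← pow_succ', Nat.sub_add_cancel hpos]; exact hz2
    calc b z = b z * (z * z ^ (2 ^ (m + 1) - 1)) := by rw [e1, mul_one]
      _ = (b z * z) * z ^ (2 ^ (m + 1) - 1) := by ring
      _ = z ^ (2 ^ (m + 1) - 1) := by rw [hb.1, one_mul]
  have hbf : ∀ a u : ℕ, b (ff a z u) = ff a z ((2 ^ (m + 1) - 1) * u) := by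
    intro a u
    unfold ff
    rw [map_sub, map_natCast, map_pow, hbz, pow_mul]
  refine h4 (𝓞 K) b hb.2 (ff (2 ^ (2 ^ c)) z) ?_ r ?_ s hcard hodd ?_ δ hδ
  · intro t ht h0
    have e1 : ((2 ^ (2 ^ c) : ℕ) : 𝓞 K) = z ^ t := by
      unfold ff at h0
      exact sub_eq_zero.mp h0
    have e2 : (((2 ^ (2 ^ c)) ^ (2 ^ m) + 1 : ℕ) : 𝓞 K) = 0 := by
      rw [Nat.cast_add, Nat.cast_pow, e1, ← pow_mul, mul_comm, pow_mul, hzN, ht.neg_one_pow,
        Nat.cast_one]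
      ring
    exact Nat.succ_ne_zero _ (Nat.cast_eq_zero.mp e2)
  · intro s hs hodd ρ hρ
    exact h3 m c r K z hz hr hbig b hb s hs hodd ρ hρ
  · intro t ht u hu
    rw [hbf]
    have ho : Odd ((2 ^ (m + 1) - 1) * u) := by
      refine Odd.mul ?_ (hodd u hu)
      rw [pow_succ]
      exact Nat.Even.sub_odd (by have := Nat.one_le_two_pow (n := m); omega) (by simp) odd_one
    refine h5 m c (𝓞 K) z hzN t _ (hodd t ht) ho ?_
    intro hd
    apply hsum t ht u hu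
    have e1 : (((2 ^ (m + 1) - 1) * u : ℕ) : ℤ) = ((2 : ℤ) ^ (m + 1) - 1) * u := by
      rw [Nat.cast_mul, Nat.cast_sub hpos]; push_cast; ring
    rw [e1] at hd
    have e2 : (t : ℤ) + u = ((t : ℤ) - ((2 : ℤ) ^ (m + 1) - 1) * u) + (2 : ℤ) ^ (m + 1) * u := by ring
    have e3 : (2 : ℤ) ^ (m + 1) ∣ (t : ℤ) + u := by
      rw [e2]; exact dvd_add hd (dvd_mul_right _ _)
    have e4 : ((2 ^ (m + 1) : ℕ) : ℤ) ∣ ((t + u : ℕ) : ℤ) := by push_cast; exact e3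
    exact Int.natCast_dvd_natCast.mp e4

end Pool.Agent.UF
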